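import Mathlib

set_option autoImplicit false

namespace Pool.Agent.Results.MP_ab5103_an.Counter
open Filter Topology InnerProductSpace

/-- the Hilbert space `ℓ₂(X)` -/
abbrev H (X : Type) : Type := lp (fun _ : X => ℂ) 2

/-- bounded operators on `ℓ₂(X)` -/
abbrev Op (X : Type) : Type := H X →L[ℂ] H X

open Classical in
/-- the standard basis vector `δ_x` -/
noncomputable def δ {X : Type} (x : X) : H X := lp.single 2 x 1

/-- finite propagation -/
def FinProp {X : Type} [MetricSpace X] (a : Op X) : Prop :=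
  ∃ R : ℝ, ∀ x y : X, inner ℂ (δ x) (a (δ y)) ≠ 0 → dist x y ≤ R

/-- the uniform Roe algebra -/
def Cu (X : Type) [MetricSpace X] : Set (Op X) := closure {a : Op X | FinProp a}

/-- uniformly locally finite -/
def ULF (X : Type) [MetricSpace X] : Prop :=
  ∀ r : ℝ, 0 < r → ∃ N : ℕ, ∀ x : X, (Metric.closedBall x r).encard ≤ N

/-- property A -/
def PropA (Y : Type) [MetricSpace Y] : Prop :=
  ∀ R ε : ℝ, 0 < R → 0 < ε → ∃ S : ℝ, 0 < S ∧ ∃ ξ : Y → lp (fun _ : Y => ℝ) 1,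
    (∀ x y, 0 ≤ ξ x y) ∧ (∀ x, ‖ξ x‖ = 1) ∧ (∀ x y, ξ x y ≠ 0 → dist x y ≤ S) ∧
    ∀ x y, dist x y ≤ R → ‖ξ x - ξ y‖ ≤ ε

/-- rank-one projection -/
def RankOneProj {X : Type} (q : Op X) : Prop :=
  IsStarProjection q ∧ LinearMap.rank (q : H X →ₗ[ℂ] H X) = 1

/-- `φ` is a unital star-homomorphism of complex star-algebras -/
def IsStarHom {A B : Type} [Semiring A] [Algebra ℂ A] [Star A] [Semiring B] [Algebra ℂ B] [Star B]
    (φ : A → B) : Prop :=
  ∃ Ψ : A →⋆ₐ[ℂ] B, ⇑Ψ = φ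

/-- composition of operators -/
noncomputable def mul {X : Type} (a b : Op X) : Op X := a * b

/-- projection -/
def IsProj {X : Type} (p : Op X) : Prop := IsStarProjection p

/-- compact operator -/
def IsCpt {X : Type} (a : Op X) : Prop := IsCompactOperator a

/-- compact preserving on the uniform Roe algebra -/
def CptPres {X Y : Type} [MetricSpace X] (Ψ : Op X → Op Y) : Prop :=
  ∀ a ∈ Cu X, IsCpt a → IsCpt (Ψ a)

/-- rank preserving on the uniform Roe algebra -/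
def RankPres {X Y : Type} [MetricSpace X] (Ψ : Op X → Op Y) : Prop :=
  ∀ q ∈ Cu X, RankOneProj q → RankOneProj (Ψ q)

lemma inner_δ {X : Type} (x : X) (v : H X) : inner ℂ (δ x) v = v x := by
  classical rw [δ, lp.inner_single_left]; simp

lemma δ_self {X : Type} (x : X) : δ x x = 1 := by classical rw [δ, lp.single_apply_self]
lemma δ_ne {X : Type} {x y : X} (h : y ≠ x) : δ x y = 0 := by
  classical rw [δ, lp.single_apply_ne _ _ _ h]
lemma norm_δ {X : Type} (x : X) : ‖δ x‖ = 1 := by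
  classical rw [δ, lp.norm_single (by norm_num)]; simp
lemma symm_δ {X E : Type} [NormedAddCommGroup E] [InnerProductSpace ℂ E] (b : HilbertBasis X ℂ E)
    (x : X) : b.repr.symm (δ x) = b x := by
  classical rw [δ, HilbertBasis.repr_symm_single]

lemma ext_δ {X : Type} (p : H X →L[ℂ] H X) (h : ∀ y, p (δ y) = 0) : p = 0 := by
  classical
  refine lp.ext_continuousLinearMap (by simp) fun i => ?_
  ext1
  have := h i
  simp only [ContinuousLinearMap.comp_apply, lp.singleContinuousLinearMap_apply,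
    zero_apply]
  convert this
  rfl

lemma decay {X : Type} [MetricSpace X] {p : H X →L[ℂ] H X} (hp : p ∈ Cu X) {ε : ℝ} (hε : 0 < ε) :
    ∃ R : ℝ, ∀ x y, R < dist x y → ‖inner ℂ (δ x) (p (δ y))‖ ≤ ε := by
  obtain ⟨q, ⟨R, hR⟩, hq⟩ := Metric.mem_closure_iff.1 hp ε hε
  refine ⟨R, fun x y h => ?_⟩
  have h0 : inner ℂ (δ x) (q (δ y)) = 0 := by
    by_contra h'
    exact absurd (hR x y h') (not_le.2 h)
  have h1 : inner ℂ (δ x) (p (δ y)) = inner ℂ (δ x) ((p - q) (δ y)) := by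
    rw [sub_apply, inner_sub_right, h0, sub_zero]
  rw [h1]
  refine (norm_inner_le_norm _ _).trans ?_
  have h2 := (p - q).le_opNorm (δ y)
  rw [norm_δ] at h2 ⊢
  rw [dist_eq_norm] at hq
  linarith

lemma one_mem {X : Type} [MetricSpace X] : (1 : H X →L[ℂ] H X) ∈ Cu X :=
  subset_closure ⟨0, fun x y h => by
    by_cases e : x = y
    · simp [e]
    · exact absurd (by rw [inner_δ]; exact δ_ne e) h⟩

lemma zero_mem {X : Type} [MetricSpace X] : (0 : H X →L[ℂ] H X) ∈ Cu X :=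
  subset_closure ⟨0, fun x y h => absurd (by simp) h⟩

lemma r1_mem {X : Type} [MetricSpace X] (u w : X) : rankOne ℂ (δ u) (δ w) ∈ Cu X :=
  subset_closure ⟨dist u w, fun x y h => by
    rw [rankOne_apply, inner_smul_right, inner_δ, inner_δ] at h
    have h1 : w = y := by_contra fun e => h (by rw [δ_ne e, zero_mul])
    have h2 : x = u := by_contra fun e => h (by rw [δ_ne e, mul_zero])
    rw [h1, h2]⟩

lemma cpt_of_rank {X : Type} (q : H X →L[ℂ] H X)
    (h : LinearMap.rank (q : H X →ₗ[ℂ] H X) = 1) : IsCompactOperator q := by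
  have : FiniteDimensional ℂ (LinearMap.range (q : H X →ₗ[ℂ] H X)) :=
    Module.finite_of_rank_eq_one h
  have : ProperSpace (LinearMap.range (q : H X →ₗ[ℂ] H X)) := FiniteDimensional.proper ℂ _
  exact (isCompactOperator_of_locallyCompactSpace_dom
    (q.codRestrict (LinearMap.range (q : H X →ₗ[ℂ] H X)) fun v => ⟨v, rfl⟩)).clm_comp
    (LinearMap.range (q : H X →ₗ[ℂ] H X)).subtypeL

abbrev K : Type := lp (fun _ : ℕ => H ℕ) 2

noncomputable def ampF (a : H ℕ →L[ℂ] H ℕ) : K →L[ℂ] K :=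
  lp.mapCLM 2 (fun _ => a) (norm_nonneg a) (fun _ => le_rfl)

lemma ampF_apply (a : H ℕ →L[ℂ] H ℕ) (v : K) (k : ℕ) : ampF a v k = a (v k) := rfl

noncomputable def amp : (H ℕ →L[ℂ] H ℕ) →⋆ₐ[ℂ] (K →L[ℂ] K) where
  toFun := ampF
  map_one' := ContinuousLinearMap.ext fun _ => lp.ext (funext fun _ => rfl)
  map_mul' _ _ := ContinuousLinearMap.ext fun _ => lp.ext (funext fun _ => rfl)
  map_zero' := ContinuousLinearMap.ext fun _ => lp.ext (funext fun _ => rfl)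
  map_add' _ _ := ContinuousLinearMap.ext fun _ => lp.ext (funext fun _ => rfl)
  commutes' _ := ContinuousLinearMap.ext fun _ => lp.ext (funext fun _ => rfl)
  map_star' a := by
    refine (ContinuousLinearMap.eq_adjoint_iff _ _).2 fun v w => ?_
    rw [lp.inner_eq_tsum, lp.inner_eq_tsum]
    exact tsum_congr fun k => ContinuousLinearMap.adjoint_inner_left a (w k) (v k)

lemma amp_apply (a : H ℕ →L[ℂ] H ℕ) (v : K) (k : ℕ) : amp a v k = a (v k) := rfl

noncomputable def ξ (x k : ℕ) : K := lp.single 2 k (δ x)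

lemma inner_ξ (x k : ℕ) (v : K) : inner ℂ (ξ x k) v = v k x := by
  rw [ξ, lp.inner_single_left, inner_δ]

lemma amp_ξ (a : H ℕ →L[ℂ] H ℕ) (y l k : ℕ) :
    amp a (ξ y l) k = if k = l then a (δ y) else 0 := by
  rw [amp_apply, ξ]
  split_ifs with h
  · rw [h, lp.single_apply_self]
  · rw [lp.single_apply_ne _ _ _ h, map_zero]

lemma ξ_amp_ξ (a : H ℕ →L[ℂ] H ℕ) (x k y l : ℕ) :
    inner ℂ (ξ x k) (amp a (ξ y l)) = (if k = l then 1 else 0) * a (δ y) x := by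
  rw [inner_ξ, amp_ξ]
  split_ifs <;> simp

lemma norm_ξ (x k : ℕ) : ‖ξ x k‖ = 1 := by rw [ξ, lp.norm_single (by norm_num), norm_δ]

def ii (x : ℕ) : ℕ := (Nat.unpair x).1
def jj (x : ℕ) : ℕ := (Nat.unpair x).1 + (Nat.unpair x).2 + 1
def σ (x k : ℕ) : ℕ := if k = ii x then jj x else if k = jj x then ii x else k
noncomputable def α (x k : ℕ) : ℝ := if k = ii x ∨ k = jj x then 3 / 5 else 1
noncomputable def β (x k : ℕ) : ℝ := if k = ii x then - 4 / 5 else if k = jj x then 4 / 5 else 0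

lemma ij (x : ℕ) : ii x < jj x := by unfold ii jj; omega
lemma jj_le (x : ℕ) : jj x ≤ 2 * x + 1 := by
  have := Nat.unpair_left_le x
  have := Nat.unpair_right_le x
  unfold jj; omega
lemma σσ (x k : ℕ) : σ x (σ x k) = k := by
  have := ij x
  unfold σ; split_ifs <;> omega
lemma ασ (x k : ℕ) : α x (σ x k) = α x k := by
  have := ij x
  unfold α σ; split_ifs <;> first | rfl | omega
lemma βσ (x k : ℕ) : β x (σ x k) = - β x k := by
  have := ij x
  unfold β σ; split_ifs <;> first | omega | norm_num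
lemma αβ (x k : ℕ) : α x k ^ 2 + β x k ^ 2 = 1 := by
  have := ij x
  unfold α β; split_ifs <;> first | omega | norm_num
lemma σ_big {x k : ℕ} (h : 2 * x + 1 < k ∨ 2 * x + 1 < σ x k) : σ x k = k := by
  have := ij x
  have := jj_le x
  unfold σ at *; split_ifs at * <;> omega

noncomputable def bb (y : ℕ × ℕ) : K :=
  (α y.1 y.2 : ℂ) • ξ y.1 y.2 + (β y.1 y.2 : ℂ) • ξ y.1 (σ y.1 y.2)

lemma inner_bb (T : K →L[ℂ] K) (x k y l : ℕ) : inner ℂ (bb (x, k)) (T (bb (y, l))) =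
    α x k * α y l * inner ℂ (ξ x k) (T (ξ y l)) + α x k * β y l * inner ℂ (ξ x k) (T (ξ y (σ y l)))
    + β x k * α y l * inner ℂ (ξ x (σ x k)) (T (ξ y l))
    + β x k * β y l * inner ℂ (ξ x (σ x k)) (T (ξ y (σ y l))) := by
  simp only [bb, map_add, map_smul, inner_add_left, inner_add_right, inner_smul_left,
    inner_smul_right, Complex.conj_ofReal]
  ring

lemma bb_diag (a : H ℕ →L[ℂ] H ℕ) (x k l : ℕ) :
    inner ℂ (bb (x, k)) (amp a (bb (x, l))) = (if k = l then 1 else 0) * a (δ x) x := by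
  rw [inner_bb]
  simp only [ξ_amp_ξ]
  have e1 : σ x k = σ x l ↔ k = l :=
    ⟨fun h => by rw [← σσ x k, h, σσ], fun h => by rw [h]⟩
  have e2 : σ x k = l ↔ k = σ x l := ⟨fun h => by rw [← h, σσ], fun h => by rw [h, σσ]⟩
  have h1 : ((α x l : ℂ)) ^ 2 + (β x l : ℂ) ^ 2 = 1 := by exact_mod_cast αβ x l
  have h2 : k = σ x l → (α x k : ℂ) * β x l + β x k * α x l = 0 := by
    rintro rfl
    rw [ασ, βσ]; push_cast; ring
  simp only [e1, e2]
  by_cases c1 : k = l <;> by_cases c2 : k = σ x l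
  · have := h2 c2
    rw [if_pos c1, if_pos c2]
    subst c1
    linear_combination a (δ x) x * h1 + a (δ x) x * this
  · rw [if_pos c1, if_neg c2]
    subst c1
    linear_combination a (δ x) x * h1
  · rw [if_neg c1, if_pos c2]
    linear_combination a (δ x) x * h2 c2
  · rw [if_neg c1, if_neg c2]; ring

lemma bb_ne (a : H ℕ →L[ℂ] H ℕ) (x k y l : ℕ) (h : inner ℂ (bb (x, k)) (amp a (bb (y, l))) ≠ 0) :
    a (δ y) x ≠ 0 ∧ (k = l ∨ k = σ y l ∨ σ x k = l ∨ σ x k = σ y l) := by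
  rw [inner_bb] at h
  simp only [ξ_amp_ξ] at h
  refine ⟨fun h0 => h (by rw [h0]; ring), ?_⟩
  by_contra hc
  push Not at hc
  exact h (by rw [if_neg hc.1, if_neg hc.2.1, if_neg hc.2.2.1, if_neg hc.2.2.2]; ring)

lemma bb_on : Orthonormal ℂ bb := by
  classical
  rw [orthonormal_iff_ite]
  rintro ⟨x, k⟩ ⟨y, l⟩
  by_cases h : x = y
  · subst h
    have := bb_diag 1 x k l
    rw [map_one, one_apply_eq_self, one_apply_eq_self, δ_self] at this
    simpa using this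
  · rw [if_neg (fun e => h (congrArg Prod.fst e))]
    by_contra hc
    have := (bb_ne 1 x k y l (by rw [map_one]; exact hc)).1
    exact this (δ_ne h)

lemma ξ_eq (x k : ℕ) : ξ x k = (α x k : ℂ) • bb (x, k) - (β x k : ℂ) • bb (x, σ x k) := by
  have h1 : ((α x k : ℂ)) ^ 2 + (β x k : ℂ) ^ 2 = 1 := by exact_mod_cast αβ x k
  simp only [bb, ασ, βσ, σσ]
  push_cast
  linear_combination (norm := module) (-h1) • ξ x k

noncomputable def B : HilbertBasis (ℕ × ℕ) ℂ K :=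
  HilbertBasis.mkOfOrthogonalEqBot bb_on (by
    rw [Submodule.eq_bot_iff]
    intro v hv
    have h : ∀ y, inner ℂ (bb y) v = 0 := fun y =>
      (Submodule.mem_orthogonal _ _).1 hv _ (Submodule.subset_span ⟨y, rfl⟩)
    refine lp.ext (funext fun k => lp.ext (funext fun x => ?_))
    have := inner_ξ x k v
    rw [ξ_eq, inner_sub_left, inner_smul_left, inner_smul_left, h, h] at this
    simpa using this.symm)

lemma B_symm (y : ℕ × ℕ) : B.repr.symm (δ y) = bb y := by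
  rw [symm_δ, B, HilbertBasis.coe_mkOfOrthogonalEqBot]

noncomputable def Φ : (H ℕ →L[ℂ] H ℕ) →⋆ₐ[ℂ] (H (ℕ × ℕ) →L[ℂ] H (ℕ × ℕ)) :=
  (B.repr.conjStarAlgEquiv : (K →L[ℂ] K) →⋆ₐ[ℂ] (H (ℕ × ℕ) →L[ℂ] H (ℕ × ℕ))).comp amp

lemma Φ_apply (a : H ℕ →L[ℂ] H ℕ) (v : H (ℕ × ℕ)) : Φ a v = B.repr (amp a (B.repr.symm v)) := rfl

lemma entry (T : K →L[ℂ] K) (y y' : ℕ × ℕ) :
    inner ℂ (δ y) (B.repr (T (B.repr.symm (δ y')))) = inner ℂ (bb y) (T (bb y')) := by
  rw [← B_symm, ← B_symm, ← B.repr.symm.inner_map_map, LinearIsometryEquiv.symm_apply_apply]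

lemma Φ_inj : Function.Injective Φ := by
  refine B.repr.conjStarAlgEquiv.injective.comp (g := B.repr.conjStarAlgEquiv) (f := amp) ?_
  intro a b h
  ext1 v
  have := congrArg (fun T : K →L[ℂ] K => T (lp.single 2 0 v) 0) h
  simpa only [amp_apply, lp.single_apply_self] using this

@[reducible] noncomputable def mX : MetricSpace ℕ :=
  MetricSpace.induced (fun n : ℕ => (n : ℝ) ^ 2)
    (fun a b h => by
      have h' : (a : ℝ) ^ 2 = (b : ℝ) ^ 2 := h
      have : a ^ 2 = b ^ 2 := by exact_mod_cast h'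
      exact Nat.pow_left_injective two_ne_zero this) inferInstance
@[reducible] noncomputable def mY : MetricSpace (ℕ × ℕ) := @Prod.metricSpaceMax ℕ ℕ mX mX

noncomputable def dd (x y : ℕ) : ℝ := |(x : ℝ) ^ 2 - (y : ℝ) ^ 2|
lemma dX (x y : ℕ) : mX.dist x y = dd x y := rfl
lemma dY (x y : ℕ × ℕ) : mY.dist x y = max (dd x.1 y.1) (dd x.2 y.2) := rfl

lemma dd_ge {x y : ℕ} (h : x ≠ y) : (x : ℝ) ≤ dd x y ∧ (y : ℝ) ≤ dd x y := by
  have x0 : (0 : ℝ) ≤ x := Nat.cast_nonneg _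
  have y0 : (0 : ℝ) ≤ y := Nat.cast_nonneg _
  rcases lt_or_gt_of_ne h with h | h
  · have : (x : ℝ) + 1 ≤ y := by exact_mod_cast h
    have h2 := neg_le_abs ((x : ℝ) ^ 2 - (y : ℝ) ^ 2)
    unfold dd; constructor <;> nlinarith
  · have : (y : ℝ) + 1 ≤ x := by exact_mod_cast h
    have h2 := le_abs_self ((x : ℝ) ^ 2 - (y : ℝ) ^ 2)
    unfold dd; constructor <;> nlinarith

lemma dd_near {x y M : ℕ} (h : dd x y ≤ M) : x = y ∨ (x ≤ M ∧ y ≤ M) := by
  by_cases e : x = y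
  · exact Or.inl e
  · exact Or.inr ⟨by exact_mod_cast (dd_ge e).1.trans h, by exact_mod_cast (dd_ge e).2.trans h⟩

lemma dd_le {x y M : ℕ} (hx : x ≤ M) (hy : y ≤ M) : dd x y ≤ (M : ℝ) ^ 2 := by
  have x1 : (x : ℝ) ^ 2 ≤ (M : ℝ) ^ 2 := by exact_mod_cast Nat.pow_le_pow_left hx 2
  have y1 : (y : ℝ) ^ 2 ≤ (M : ℝ) ^ 2 := by exact_mod_cast Nat.pow_le_pow_left hy 2
  exact abs_le.2 ⟨by linarith [sq_nonneg (x : ℝ)], by linarith [sq_nonneg (y : ℝ)]⟩

lemma dd_self (x : ℕ) : dd x x = 0 := by simp [dd]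

lemma fp_map (a : H ℕ →L[ℂ] H ℕ) (ha : @FinProp ℕ mX a) : @FinProp (ℕ × ℕ) mY (Φ a) := by
  obtain ⟨R, hR⟩ := ha
  obtain ⟨M, hM⟩ := exists_nat_ge R
  refine ⟨max (M : ℝ) (((2 * M + 1 : ℕ) : ℝ) ^ 2), ?_⟩
  rintro ⟨x, k⟩ ⟨y, l⟩ h
  rw [Φ_apply, entry] at h
  obtain ⟨h1, h2⟩ := bb_ne a x k y l h
  have h3 : dd x y ≤ M := (hR x y (by rwa [inner_δ])).trans hM
  refine (dY _ _).le.trans (max_le_max h3 ?_)
  by_cases e : k = l
  · rw [e, dd_self]; positivity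
  rcases dd_near h3 with rfl | ⟨hx, hy⟩
  · rw [bb_diag, if_neg e, zero_mul] at h
    exact absurd rfl h
  · have a1 := @σ_big x k
    have a2 := @σ_big y l
    exact dd_le (by omega) (by omega)

lemma ulf_aux (M : ℕ) (x y : ℕ) (h : dd y x ≤ M) :
    ∃ c ∈ Set.Iic (M + 1), (if c = M + 1 then x else c) = y := by
  rcases dd_near h with rfl | ⟨h1, -⟩
  · exact ⟨M + 1, Set.mem_Iic.2 le_rfl, if_pos rfl⟩
  · exact ⟨y, Set.mem_Iic.2 (by omega), if_neg (by omega)⟩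

lemma ulfX : @ULF ℕ mX := by
  intro r _
  obtain ⟨M, hM⟩ := exists_nat_ge r
  refine ⟨(Set.Iic (M + 1)).ncard, fun x => ?_⟩
  rw [(Set.finite_Iic _).cast_ncard_eq]
  refine le_trans (Set.encard_le_encard fun y hy => ?_)
    (Set.encard_image_le (fun c => if c = M + 1 then x else c) _)
  exact ulf_aux M x y (le_trans hy hM)

lemma ulfY : @ULF (ℕ × ℕ) mY := by
  intro r _
  obtain ⟨M, hM⟩ := exists_nat_ge r
  refine ⟨(Set.Iic (M + 1) ×ˢ Set.Iic (M + 1)).ncard, fun x => ?_⟩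
  rw [((Set.finite_Iic _).prod (Set.finite_Iic _)).cast_ncard_eq]
  refine le_trans (Set.encard_le_encard fun y hy => ?_)
    (Set.encard_image_le (fun c : ℕ × ℕ =>
      ((if c.1 = M + 1 then x.1 else c.1), (if c.2 = M + 1 then x.2 else c.2))) _)
  have h : max (dd y.1 x.1) (dd y.2 x.2) ≤ M := le_trans hy hM
  obtain ⟨c, c1, c2⟩ := ulf_aux M x.1 y.1 ((le_max_left _ _).trans h)
  obtain ⟨d, d1, d2⟩ := ulf_aux M x.2 y.2 ((le_max_right _ _).trans h)
  exact ⟨(c, d), ⟨c1, d1⟩, Prod.ext c2 d2⟩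

lemma propA : @PropA (ℕ × ℕ) mY := by
  intro R ε _ hε
  obtain ⟨M, hM⟩ := exists_nat_ge R
  let c : ℕ → ℕ := fun x => if x ≤ M then 0 else x
  have c1 : ∀ x, dd x (c x) ≤ (M : ℝ) ^ 2 + 1 := fun x => by
    by_cases h : x ≤ M
    · simp only [c, if_pos h]; linarith [dd_le h (Nat.zero_le M)]
    · simp only [c, if_neg h, dd_self]; positivity
  have c2 : ∀ x y, dd x y ≤ M → c x = c y := fun x y h => by
    rcases dd_near h with rfl | ⟨h1, h2⟩
    · rfl
    · simp only [c, if_pos h1, if_pos h2]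
  refine ⟨(M : ℝ) ^ 2 + 1, by positivity, fun y => lp.single 1 (c y.1, c y.2) 1, fun x y => ?_,
    fun x => ?_, fun x y h => ?_, fun x y h => ?_⟩
  · rw [lp.single_apply, Pi.single_apply]; split_ifs <;> norm_num
  · rw [lp.norm_single (by norm_num)]; simp
  · have : y = (c x.1, c x.2) := by
      by_contra e
      exact h (lp.single_apply_ne _ _ _ e)
    rw [this]
    exact max_le (c1 _) (c1 _)
  · have h' : max (dd x.1 y.1) (dd x.2 y.2) ≤ M := le_trans h hM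
    simp only [c2 _ _ ((le_max_left _ _).trans h'), c2 _ _ ((le_max_right _ _).trans h'), sub_self,
      norm_zero]
    exact hε.le

lemma amp_r1 (x l : ℕ) : amp (rankOne ℂ (δ x) (δ 0)) (ξ 0 l) = ξ x l := by
  refine lp.ext (funext fun k => ?_)
  rw [amp_ξ, ξ]
  split_ifs with h
  · rw [h, lp.single_apply_self, rankOne_apply, inner_δ, δ_self, one_smul]
  · rw [lp.single_apply_ne _ _ _ h]

lemma ξ_on : Orthonormal ℂ (ξ 0) := by
  rw [orthonormal_iff_ite]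
  intro k l
  have := ξ_amp_ξ 1 0 k 0 l
  rwa [map_one, one_apply_eq_self, one_apply_eq_self, δ_self, mul_one] at this

lemma small (P : K →L[ℂ] K) (hP : IsSelfAdjoint P) (C : Set K) (hC : IsCompact C)
    (h : ∀ N, P (ξ 0 N) ∈ C) {ε : ℝ} (hε : 0 < ε) (M : ℕ) : ∃ N, M ≤ N ∧ ‖P (ξ 0 N)‖ ≤ ε := by
  obtain ⟨η, -, φ, hφ, hl⟩ := hC.tendsto_subseq h
  have h1 : Tendsto (fun n => inner ℂ (P (ξ 0 (φ n))) η) atTop (𝓝 (inner ℂ η η)) :=
    hl.inner tendsto_const_nhds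
  have h2 : Tendsto (fun N => ‖inner ℂ (ξ 0 N) (P η)‖ ^ 2) atTop (𝓝 0) :=
    (ξ_on.inner_products_summable (P η)).tendsto_atTop_zero
  have h3 : Tendsto (fun n => ‖inner ℂ (P (ξ 0 (φ n))) η‖ ^ 2) atTop (𝓝 0) := by
    refine (h2.comp hφ.tendsto_atTop).congr fun n => ?_
    rw [Function.comp_apply, ← hP.isSymmetric.apply_clm]
  have h4 : η = 0 := by
    have := tendsto_nhds_unique (h1.norm.pow 2) h3
    exact inner_self_eq_zero.1 (norm_eq_zero.1 (pow_eq_zero_iff two_ne_zero |>.1 this))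
  rw [h4] at hl
  have h5 := hl.norm
  rw [norm_zero] at h5
  obtain ⟨n, n1, n2⟩ := ((h5.eventually_le_const hε).and
    (hφ.tendsto_atTop.eventually_ge_atTop M)).exists
  exact ⟨φ n, n2, n1⟩

lemma core (P : K →L[ℂ] K) (hP : IsStarProjection P)
    (hc : ∀ x v, P (amp (rankOne ℂ (δ x) (δ 0)) v) = amp (rankOne ℂ (δ x) (δ 0)) (P v))
    (hd : ∀ ε : ℝ, 0 < ε → ∃ R : ℝ, ∀ x k l, R < dd k l →
      ‖inner ℂ (bb (x, k)) (P (bb (x, l)))‖ ≤ ε)
    (C : Set K) (hC : IsCompact C) (h : ∀ N, P (ξ 0 N) ∈ C) (y : ℕ × ℕ) : P (bb y) = 0 := by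
  have sym := hP.isSelfAdjoint.isSymmetric
  have e : ∀ x k l, inner ℂ (ξ x k) (P (ξ x l)) = inner ℂ (ξ 0 k) (P (ξ 0 l)) := by
    intro x k l
    rw [← amp_r1 x l, hc, inner_ξ, inner_ξ, amp_apply, rankOne_apply, inner_δ, lp.coeFn_smul,
      Pi.smul_apply, δ_self, smul_eq_mul, mul_one]
  have b1 : ∀ k l, ‖inner ℂ (ξ 0 k) (P (ξ 0 l))‖ ≤ ‖P (ξ 0 l)‖ := fun k l =>
    (norm_inner_le_norm _ _).trans (by rw [norm_ξ, one_mul])
  have b2 : ∀ k l, ‖inner ℂ (ξ 0 k) (P (ξ 0 l))‖ ≤ ‖P (ξ 0 k)‖ := fun k l => by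
    rw [← sym.apply_clm]
    exact (norm_inner_le_norm _ _).trans (by rw [norm_ξ, mul_one])
  have z : ∀ k, inner ℂ (ξ 0 k) (P (ξ 0 k)) = 0 := by
    intro k
    refine norm_le_zero_iff.1 (le_of_forall_pos_le_add fun ε hε => ?_)
    obtain ⟨R, hR⟩ := hd (ε / 10) (by positivity)
    obtain ⟨M, hM⟩ := exists_nat_gt R
    obtain ⟨N, N1, N2⟩ := small P hP.isSelfAdjoint C hC h (ε := ε / 10) (by positivity) (M + k + 1)
    have hi : ii (Nat.pair k (N - k - 1)) = k := by simp [ii]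
    have hj : jj (Nat.pair k (N - k - 1)) = N := by simp only [jj, Nat.unpair_pair]; omega
    generalize Nat.pair k (N - k - 1) = x at hi hj
    have kN : k ≠ N := by omega
    have h1 := hR x k N (by
      have h0 : (M : ℝ) ≤ N := by exact_mod_cast (by omega : M ≤ N)
      linarith [(dd_ge kN).2])
    have s1 : σ x k = N := by rw [σ, hi, if_pos rfl, hj]
    have s2 : σ x N = k := by rw [σ, hi, if_neg kN.symm, hj, if_pos rfl]
    have a1 : α x k = 3 / 5 := by rw [α, if_pos (Or.inl hi.symm)]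
    have a2 : α x N = 3 / 5 := by rw [α, if_pos (Or.inr hj.symm)]
    have a3 : β x k = - 4 / 5 := by rw [β, if_pos hi.symm]
    have a4 : β x N = 4 / 5 := by rw [β, hi, if_neg kN.symm, if_pos hj.symm]
    rw [inner_bb, s1, s2, a1, a2, a3, a4] at h1
    simp only [e x] at h1
    have f1 := (b1 k N).trans N2
    have f2 := (b1 N N).trans N2
    have f3 := (b2 N k).trans N2
    generalize inner ℂ (ξ 0 k) (P (ξ 0 N)) = u1 at h1 f1
    generalize inner ℂ (ξ 0 N) (P (ξ 0 N)) = u2 at h1 f2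
    generalize inner ℂ (ξ 0 N) (P (ξ 0 k)) = u3 at h1 f3
    generalize inner ℂ (ξ 0 k) (P (ξ 0 k)) = u at h1 ⊢
    generalize hw : ((3 / 5 : ℝ) : ℂ) * ((3 / 5 : ℝ) : ℂ) * u1 + ((3 / 5 : ℝ) : ℂ) * ((4 / 5 : ℝ) : ℂ) * u
      + ((-4 / 5 : ℝ) : ℂ) * ((3 / 5 : ℝ) : ℂ) * u2 + ((-4 / 5 : ℝ) : ℂ) * ((4 / 5 : ℝ) : ℂ) * u3 = w
      at h1
    have : u = (25 / 12 : ℂ) * w + (- 3 / 4 : ℂ) * u1 + u2 + (4 / 3 : ℂ) * u3 := by
      rw [← hw]; push_cast; ring
    rw [this]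
    refine (norm_add_le _ _).trans ((add_le_add_left (norm_add₃_le) _).trans ?_)
    simp only [norm_mul, norm_div, norm_neg, Complex.norm_ofNat]
    linarith
  have z2 : ∀ x k, P (ξ x k) = 0 := by
    intro x k
    have h1 : P (P (ξ x k)) = P (ξ x k) :=
      congrArg (fun T : K →L[ℂ] K => T (ξ x k)) hP.isIdempotentElem.eq
    rw [← inner_self_eq_zero (𝕜 := ℂ), sym.apply_clm, h1, e, z]
  rw [bb, map_add, map_smul, map_smul, z2, z2, smul_zero, smul_zero, add_zero]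

lemma main (p : H (ℕ × ℕ) →L[ℂ] H (ℕ × ℕ)) (hp : p ∈ @Cu _ mY) (h1 : IsStarProjection p)
    (h2 : ∀ a ∈ @Cu _ mX, p * Φ a = Φ a * p)
    (h3 : IsCompactOperator (p * Φ (rankOne ℂ (δ 0) (δ 0)) * p)) : p = 0 := by
  let P : K →L[ℂ] K := B.repr.symm.conjStarAlgEquiv p
  have hP : ∀ v, P v = B.repr.symm (p (B.repr v)) := fun _ => rfl
  have hc : ∀ x v, P (amp (rankOne ℂ (δ x) (δ 0)) v) = amp (rankOne ℂ (δ x) (δ 0)) (P v) := by
    intro x v
    have := congrArg (fun T : H (ℕ × ℕ) →L[ℂ] H (ℕ × ℕ) => B.repr.symm (T (B.repr v)))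
      (h2 _ (@r1_mem _ mX x 0))
    simpa only [hP, mul_apply_eq_comp, Φ_apply, LinearIsometryEquiv.symm_apply_apply] using this
  have pP : ∀ w, p w = B.repr (P (B.repr.symm w)) := fun w => by
    rw [hP, LinearIsometryEquiv.apply_symm_apply, LinearIsometryEquiv.apply_symm_apply]
  have sP : IsStarProjection P := h1.map _
  obtain ⟨C, hC, hC'⟩ := IsCompactOperator.image_closedBall_subset_compact
    (f := (p * Φ (rankOne ℂ (δ 0) (δ 0)) * p : H (ℕ × ℕ) →L[ℂ] H (ℕ × ℕ)).toLinearMap) h3 1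
  refine ext_δ p fun y => ?_
  rw [pP, B_symm, core P sP hc (fun ε hε => ?_) (B.repr.symm '' C)
    (hC.image B.repr.symm.continuous) (fun N => ?_) y, map_zero]
  · obtain ⟨R, hR⟩ := @decay _ mY p hp ε hε
    refine ⟨R, fun x k l h => ?_⟩
    have := hR (x, k) (x, l) (h.trans_le (le_max_right _ _))
    rwa [pP, entry] at this
  · refine ⟨_, hC' ⟨B.repr (ξ 0 N), by simp [norm_ξ], rfl⟩, ?_⟩
    have e1 : P (P (ξ 0 N)) = P (ξ 0 N) :=
      congrArg (fun T : K →L[ℂ] K => T (ξ 0 N)) sP.isIdempotentElem.eq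
    have e2 : P (ξ 0 N) = P (amp (rankOne ℂ (δ 0) (δ 0)) (P (ξ 0 N))) := by
      rw [← hc, amp_r1, e1]
    rw [e2]
    rfl

theorem result : ∃ (X Y : Type) (_ : MetricSpace X) (_ : MetricSpace Y) (φ : Op X → Op Y),
    ULF X ∧ ULF Y ∧ PropA Y ∧
    IsStarHom φ ∧ Set.MapsTo φ (Cu X) (Cu Y) ∧ Function.Injective φ ∧
    ∀ p ∈ Cu Y, IsProj p → (∀ a ∈ Cu X, mul p (φ a) = mul (φ a) p) →
      Set.InjOn (fun a => mul (mul p (φ a)) p) (Cu X) →
      ¬ CptPres (fun a => mul (mul p (φ a)) p) ∧ ¬ RankPres (fun a => mul (mul p (φ a)) p) := by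
  refine ⟨ℕ, ℕ × ℕ, mX, mY, Φ, ulfX, ulfY, propA, ⟨Φ, rfl⟩, ?_, Φ_inj,
    fun p hp h1 h2 h3 => ?_⟩
  · exact Set.MapsTo.closure (f := Φ) (fun a ha => fp_map a ha)
      (AddMonoidHomClass.continuous_of_bound Φ 1 fun a => by
        rw [one_mul]; exact NonUnitalStarAlgHom.norm_apply_le Φ a)
  have hne : δ (0 : ℕ) ≠ 0 := norm_ne_zero_iff.1 (by rw [norm_δ]; exact one_ne_zero)
  have r : RankOneProj (rankOne ℂ (δ (0 : ℕ)) (δ 0)) :=
    ⟨isStarProjection_rankOne_self (norm_δ _), rank_rankOne hne hne⟩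
  have key : ¬ IsCompactOperator (p * Φ (rankOne ℂ (δ 0) (δ 0)) * p) := fun h => by
    have h0 := main p hp h1 h2 h
    have := h3 (@one_mem _ mX) (@zero_mem _ mX) (by simp [h0, mul])
    exact hne (congrArg (fun T : H ℕ →L[ℂ] H ℕ => T (δ 0)) this)
  exact ⟨fun h => key (h _ (@r1_mem _ mX 0 0) (cpt_of_rank _ r.2)),
    fun h => key (cpt_of_rank _ (h _ (@r1_mem _ mX 0 0) r).2)⟩

end Pool.Agent.Results.MP_ab5103_an.Counter
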